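import Mathlib
import Pool.Agent.Lib.Pc4a55f.PolProd

set_option autoImplicit false

/-!
# Arbitrary products of minimal groups

* `MinimalGroup G` (file `Pool.Agent.Lib.Pc4a55f.Prod`): `G` with its given topology is a Hausdorff
  topological group, and every Hausdorff group topology on `G` coarser than the given topology is
  equal to it.
* `RaikovComplete G` (file `Pool.Agent.Lib.Pc4a55f.Compl`): every Cauchy filter for the two-sided
  uniformity converges.
* `SepCentre G` (same file): every central `z ≠ 1` lies outside some open subgroup, or is moved by
  some strongly continuous representation by linear isometries of a real normed space with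
  separable dual.
* `GoodFactor G` (file `Pool.Agent.Lib.Pc4a55f.PolProd`): `G` is second countable and locally compact;
  or `G` is second countable, Raikov complete and `SepCentre G` holds; or the centre of `G` is
  compact and the quotient of `G` by its centre is a minimal group.
-/

namespace Pool.Agent.Results.MP_c4a55f_al.PolishProducts

open Pool.Agent.Lib.Pc4a55f

/-- An arbitrary product of minimal topological groups, each of which satisfies `GoodFactor`, is
minimal. -/
theorem result.{v, u, a} {I : Type a} (G : I → Type u) [∀ i, Group (G i)]
    [∀ i, TopologicalSpace (G i)] (hmin : ∀ i, MinimalGroup (G i))
    (hfac : ∀ i, GoodFactor.{v} (G i)) : MinimalGroup (∀ i, G i) :=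
  main2 G hmin hfac

end Pool.Agent.Results.MP_c4a55f_al.PolishProducts
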