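import Pool.Agent.Lib.Pc4a55f.Final

/-!
There is a sequence of locally compact (so Raikov complete) minimal groups whose product carries a
Hausdorff group topology which is strictly coarser than the product topology.
-/

namespace Pool.Agent.Results.MP_c4a55f_al.ProductNotMinimal

/-- `G` is minimal: every Hausdorff group topology `σ` coarser than the topology `τ` of `G`
(in the order of Mathlib coarser topologies are larger) is equal to `τ`. -/
def IsMinimal (G : Type) [Group G] [τ : TopologicalSpace G] : Prop :=
  ∀ σ : TopologicalSpace G, @IsTopologicalGroup G σ _ → @T2Space G σ → τ ≤ σ → σ = τ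

/-- The two-sided uniformity of a topological group: the coarsest uniformity finer than the right
and the left uniformity (in the order of Mathlib this is their infimum). -/
def twoSidedUniformity (G : Type) [Group G] [TopologicalSpace G] [IsTopologicalGroup G] :
    UniformSpace G :=
  IsTopologicalGroup.rightUniformSpace G ⊓ IsTopologicalGroup.leftUniformSpace G

/-- Raikov complete: complete for the two-sided uniformity. -/
def RaikovComplete (G : Type) [Group G] [TopologicalSpace G] [IsTopologicalGroup G] : Prop :=
  @CompleteSpace G (twoSidedUniformity G)

theorem result :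
    ∃ (G : ℕ → Type) (_ : ∀ n, Group (G n)) (_ : ∀ n, TopologicalSpace (G n))
      (_ : ∀ n, IsTopologicalGroup (G n)),
      (∀ n, T2Space (G n) ∧ LocallyCompactSpace (G n) ∧ RaikovComplete (G n) ∧
        IsMinimal (G n)) ∧
      ∃ σ : TopologicalSpace (∀ n, G n), @IsTopologicalGroup (∀ n, G n) σ _ ∧
        @T2Space (∀ n, G n) σ ∧ Pi.topologicalSpace < σ :=
  Pool.Agent.Lib.Pc4a55f.main

end Pool.Agent.Results.MP_c4a55f_al.ProductNotMinimal
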